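import Pool.Agent.H32.F14.Iface

/-!
# MP_39c6f6_co, part D2b: the inequality of a hub (helper31)
-/

set_option autoImplicit false
set_option linter.unusedSectionVars false

noncomputable section

open Classical

namespace Pool.Agent.H31.F14

open Pool.Agent.H32.F14

section
variable {ι β J H : Type} [Fintype ι] [Fintype β] [Fintype J] [Fintype H]

lemma eA_le_dC (e : ι → β → ℕ) (A : Finset ι) (C : β) : eA e A C ≤ dC e C :=
  Finset.sum_le_sum_of_subset (Finset.subset_univ A)

lemma eA_mono (e : ι → β → ℕ) {A B : Finset ι} (h : A ⊆ B) (C : β) : eA e A C ≤ eA e B C :=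
  Finset.sum_le_sum_of_subset h

lemma eA_union (e : ι → β → ℕ) {A B : Finset ι} (h : Disjoint A B) (C : β) :
    eA e (A ∪ B) C = eA e A C + eA e B C :=
  Finset.sum_union h

lemma eq_zero_of_full (e : ι → β → ℕ) {A : Finset ι} {C : β} (h : eA e A C = dC e C) {s : ι}
    (hs : s ∉ A) : e s C = 0 := by
  have h1 : dC e C = eA e A C + ∑ s ∈ Finset.univ \ A, e s C := by
    unfold dC eA
    rw [add_comm, Finset.sum_sdiff (Finset.subset_univ A)]
  have h2 : ∑ s ∈ Finset.univ \ A, e s C = 0 := by omega
  rw [Finset.sum_eq_zero_iff] at h2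
  exact h2 s (by simp [hs])

/-- the clusters and the hubs partition `ι` -/
lemma dC_split {e : ι → β → ℕ} {dem : ι → ℕ} {Z : J → Finset ι} {X : H → Finset ι}
    {I : J → Finset H} {gam : J → ℕ} (hC : IsCS e dem Z X I gam) (C : β) :
    dC e C = ∑ j, eA e (Z j) C + ∑ i, eA e (X i) C := by
  have h1 : (Finset.univ : Finset ι) =
      (Finset.univ.biUnion Z) ∪ (Finset.univ.biUnion X) := by
    ext s
    simp only [Finset.mem_univ, Finset.mem_union, Finset.mem_biUnion, true_and, true_iff]
    exact hC.cover s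
  have h2 : Disjoint (Finset.univ.biUnion Z) (Finset.univ.biUnion X) := by
    rw [Finset.disjoint_biUnion_left]
    intro j _
    rw [Finset.disjoint_biUnion_right]
    intro i _
    exact hC.ZX j i
  unfold dC eA
  rw [h1, Finset.sum_union h2, Finset.sum_biUnion, Finset.sum_biUnion]
  · intro i _ i' _ h
    exact hC.XX i i' h
  · intro j _ j' _ h
    exact hC.ZZ j j' h

/-- `Z j` and the hubs of `j` -/
lemma ZX_le_Aj {e : ι → β → ℕ} {dem : ι → ℕ} {Z : J → Finset ι} {X : H → Finset ι}
    {I : J → Finset H} {gam : J → ℕ} (hC : IsCS e dem Z X I gam) (j : J) (i : H) (hi : i ∈ I j)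
    (C : β) : eA e (Z j) C + eA e (X i) C ≤ eA e (Aj Z X I j) C := by
  rw [← eA_union e (hC.ZX j i)]
  apply eA_mono
  intro s hs
  unfold Aj
  rcases Finset.mem_union.1 hs with h | h
  · exact Finset.mem_union_left _ h
  · exact Finset.mem_union_right _ (Finset.mem_biUnion.2 ⟨i, hi, h⟩)

lemma XX_le_Aj {e : ι → β → ℕ} {dem : ι → ℕ} {Z : J → Finset ι} {X : H → Finset ι}
    {I : J → Finset H} {gam : J → ℕ} (hC : IsCS e dem Z X I gam) (j : J) (i i' : H) (hi : i ∈ I j)
    (hi' : i' ∈ I j) (hne : i ≠ i') (C : β) :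
    eA e (X i) C + eA e (X i') C ≤ eA e (Aj Z X I j) C := by
  rw [← eA_union e (hC.XX i i' hne)]
  apply eA_mono
  intro s hs
  unfold Aj
  rcases Finset.mem_union.1 hs with h | h
  · exact Finset.mem_union_right _ (Finset.mem_biUnion.2 ⟨i, hi, h⟩)
  · exact Finset.mem_union_right _ (Finset.mem_biUnion.2 ⟨i', hi', h⟩)

/-- a beta component touching the hub `i` is beta for only one cluster of the hub -/
lemma beta_unique {e : ι → β → ℕ} {dem : ι → ℕ} {Z : J → Finset ι} {X : H → Finset ι}
    {I : J → Finset H} {gam : J → ℕ} (hC : IsCS e dem Z X I gam) (i : H) (j j' : J)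
    (hi : i ∈ I j) (hi' : i ∈ I j') (C : β) (h : C ∈ beta e Z X I j) (h' : C ∈ beta e Z X I j') :
    j = j' := by
  by_contra hne
  unfold beta at h h'
  rw [Finset.mem_filter] at h h'
  obtain ⟨-, h3, hA, -, hX⟩ := h
  obtain ⟨-, -, hA', -, -⟩ := h'
  have hint : ∀ i', i' ∈ I j → i' ∈ I j' → i' = i := by
    intro i' h1 h2
    have := hC.inter1 j j' hne
    rw [Finset.card_le_one] at this
    exact this i' (Finset.mem_inter.2 ⟨h1, h2⟩) i (Finset.mem_inter.2 ⟨hi, hi'⟩)
  have hsub : Aj Z X I j ∩ Aj Z X I j' ⊆ X i := by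
    intro s hs
    rw [Finset.mem_inter] at hs
    unfold Aj at hs
    simp only [Finset.mem_union, Finset.mem_biUnion] at hs
    obtain ⟨hs1, hs2⟩ := hs
    rcases hs1 with hz | ⟨a, ha, hxa⟩
    · rcases hs2 with hz' | ⟨b, hb, hxb⟩
      · exact absurd hz' (Finset.disjoint_left.1 (hC.ZZ j j' hne) hz)
      · exact absurd hxb (Finset.disjoint_left.1 (hC.ZX j b) hz)
    · rcases hs2 with hz' | ⟨b, hb, hxb⟩
      · exact absurd hxa (Finset.disjoint_left.1 (hC.ZX j' a) hz')
      · by_cases hab : a = b
        · subst hab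
          rw [hint a ha hb] at hxa
          exact hxa
        · exact absurd hxb (Finset.disjoint_left.1 (hC.XX a b hab) hxa)
  have h4 : eA e (X i) C = 3 := by
    have hz : ∀ s, s ∉ X i → e s C = 0 := by
      intro s hs
      by_cases h5 : s ∈ Aj Z X I j
      · apply eq_zero_of_full e (A := Aj Z X I j') (by rw [hA', h3])
        intro h6
        exact hs (hsub (Finset.mem_inter.2 ⟨h5, h6⟩))
      · exact eq_zero_of_full e (A := Aj Z X I j) (by rw [hA, h3]) h5
    have h7 : dC e C = eA e (X i) C := by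
      unfold dC eA
      symm
      apply Finset.sum_subset (Finset.subset_univ _)
      intro s _ hs
      exact hz s hs
    omega
  exact hX i hi h4

/-- the overlap of a hub with its cluster -/
lemma ov_eK_xb {e : ι → β → ℕ} {dem : ι → ℕ} {Z : J → Finset ι} {X : H → Finset ι}
    {I : J → Finset H} {gam : J → ℕ} (hC : IsCS e dem Z X I gam) (i : H) (j : J) (hi : i ∈ I j) :
    2 ≤ eK e Z X i j + xb e Z X I i j := by
  have h := hC.ov2 j i hi
  have h1 : (Finset.univ.filter
      (fun C => dC e C ≠ 3 ∧ eA e (X i) C ≠ 0 ∧ eA e (Z j) C ≠ 0)).card ≤ eK e Z X i j := by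
    unfold eK
    rw [Finset.card_eq_sum_ones]
    calc ∑ C ∈ Finset.univ.filter (fun C => dC e C ≠ 3 ∧ eA e (X i) C ≠ 0 ∧ eA e (Z j) C ≠ 0), 1
        ≤ ∑ C ∈ Finset.univ.filter (fun C => dC e C ≠ 3 ∧ eA e (X i) C ≠ 0 ∧ eA e (Z j) C ≠ 0),
            eA e (Z j) C := by
          apply Finset.sum_le_sum
          intro C hC'
          rw [Finset.mem_filter] at hC'
          omega
      _ ≤ _ := by
          apply Finset.sum_le_sum_of_subset
          intro C hC'
          rw [Finset.mem_filter] at hC' ⊢
          exact ⟨hC'.1, hC'.2.1, hC'.2.2.1⟩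
  have h2 : (Finset.univ.filter (fun C => dC e C = 3 ∧ eA e (Aj Z X I j) C = 3 ∧
      eA e (X i) C ≠ 0 ∧ eA e (X i) C ≠ 3)).card ≤ xb e Z X I i j := by
    unfold xb
    rw [Finset.card_eq_sum_ones]
    calc ∑ C ∈ Finset.univ.filter (fun C => dC e C = 3 ∧ eA e (Aj Z X I j) C = 3 ∧
            eA e (X i) C ≠ 0 ∧ eA e (X i) C ≠ 3), 1
        ≤ ∑ C ∈ Finset.univ.filter (fun C => dC e C = 3 ∧ eA e (Aj Z X I j) C = 3 ∧
            eA e (X i) C ≠ 0 ∧ eA e (X i) C ≠ 3), eA e (X i) C := by
          apply Finset.sum_le_sum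
          intro C hC'
          rw [Finset.mem_filter] at hC'
          omega
      _ ≤ _ := by
          apply Finset.sum_le_sum_of_subset
          intro C hC'
          unfold beta
          rw [Finset.mem_filter] at hC' ⊢
          obtain ⟨hu, h3, hA, h0, hX3⟩ := hC'
          refine ⟨hu, h3, hA, ?_, ?_⟩
          · have := ZX_le_Aj hC j i hi C
            omega
          · intro i' hi'
            by_cases hii : i' = i
            · rw [hii]; exact hX3
            · have := XX_le_Aj hC j i' i hi' hi hii C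
              omega
  omega

/-- weight of a 3-component with `x` edges at the hub -/
def w3 (x : ℕ) : ℕ := 9 * min 2 x - 3 * x

/-- the 5+-components at the hub -/
def N5 (e : ι → β → ℕ) (X : H → Finset ι) (i : H) : Finset β :=
  Finset.univ.filter (fun C => dC e C ≠ 3 ∧ eA e (X i) C ≠ 0)

def T3 (e : ι → β → ℕ) : Finset β := Finset.univ.filter (fun C => dC e C = 3)

lemma rX_count {e : ι → β → ℕ} {dem : ι → ℕ} {Z : J → Finset ι} {X : H → Finset ι}
    {I : J → Finset H} {gam : J → ℕ} (hC : IsCS e dem Z X I gam) (i : H) :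
    demA dem (X i) + 1 = (N5 e X i).card + ∑ C ∈ T3 e, min 2 (eA e (X i) C) := by
  rw [← hC.rX i]
  unfold rA
  rw [← Finset.sum_filter_add_sum_filter_not Finset.univ (fun C => dC e C = 3), add_comm]
  congr 1
  · rw [Finset.card_eq_sum_ones]
    unfold N5
    have h1 : (Finset.univ.filter (fun C => dC e C ≠ 3 ∧ eA e (X i) C ≠ 0)) =
        (Finset.univ.filter (fun C => ¬ dC e C = 3)).filter (fun C => eA e (X i) C ≠ 0) := by
      rw [Finset.filter_filter]
    rw [h1, Finset.sum_filter (s := Finset.univ.filter (fun C => ¬ dC e C = 3))]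
    apply Finset.sum_congr rfl
    intro C hC'
    rw [Finset.mem_filter] at hC'
    unfold uC
    rw [if_neg hC'.2]
    split_ifs with h
    · omega
    · omega
  · apply Finset.sum_congr rfl
    intro C hC'
    rw [Finset.mem_filter] at hC'
    unfold uC
    rw [if_pos hC'.2]

lemma massH_eq (e : ι → β → ℕ) (full dem : ι → ℕ) (Z : J → Finset ι) (X : H → Finset ι)
    (I : J → Finset H) (gam : J → ℕ) (i : H) :
    massH e full dem Z X I gam i + ∑ C ∈ N5 e X i, red e full dem Z X I gam i C =
      9 * (N5 e X i).card + 3 * ∑ C ∈ T3 e, eA e (X i) C := by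
  unfold massH
  have h1 : ∑ C ∈ N5 e X i, (9 - red e full dem Z X I gam i C) +
      ∑ C ∈ N5 e X i, red e full dem Z X I gam i C = 9 * (N5 e X i).card := by
    rw [← Finset.sum_add_distrib, Finset.card_eq_sum_ones, Finset.mul_sum]
    apply Finset.sum_congr rfl
    intro C _
    have : red e full dem Z X I gam i C ≤ 9 := by unfold red; exact min_le_left _ _
    omega
  have h2 : (N5 e X i) = Finset.univ.filter (fun C => dC e C ≠ 3 ∧ eA e (X i) C ≠ 0) := rfl
  have h3 : T3 e = Finset.univ.filter (fun C => dC e C = 3) := rfl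
  rw [← h2, ← h3]
  omega

lemma T3_sum (e : ι → β → ℕ) (X : H → Finset ι) (i : H) :
    9 * ∑ C ∈ T3 e, min 2 (eA e (X i) C) =
      ∑ C ∈ T3 e, w3 (eA e (X i) C) + 3 * ∑ C ∈ T3 e, eA e (X i) C := by
  rw [Finset.mul_sum, Finset.mul_sum, ← Finset.sum_add_distrib]
  apply Finset.sum_congr rfl
  intro C hC'
  unfold T3 at hC'
  rw [Finset.mem_filter] at hC'
  have := eA_le_dC e (X i) C
  unfold w3
  omega

lemma xb_sum {e : ι → β → ℕ} {dem : ι → ℕ} {Z : J → Finset ι} {X : H → Finset ι}
    {I : J → Finset H} {gam : J → ℕ} (hC : IsCS e dem Z X I gam) (i : H) :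
    6 * ∑ j ∈ Finset.univ.filter (fun j => i ∈ I j), xb e Z X I i j ≤
      ∑ C ∈ T3 e, w3 (eA e (X i) C) := by
  have h1 : ∀ j, xb e Z X I i j = ∑ C ∈ T3 e, if C ∈ beta e Z X I j then eA e (X i) C else 0 := by
    intro j
    unfold xb
    rw [← Finset.sum_filter]
    apply Finset.sum_congr _ (fun _ _ => rfl)
    ext C
    rw [Finset.mem_filter]
    constructor
    · intro h
      refine ⟨?_, h⟩
      unfold beta at h
      rw [Finset.mem_filter] at h
      unfold T3
      rw [Finset.mem_filter]
      exact ⟨Finset.mem_univ _, h.2.1⟩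
    · exact fun h => h.2
  simp_rw [h1]
  rw [Finset.sum_comm, Finset.mul_sum]
  apply Finset.sum_le_sum
  intro C hC'
  unfold T3 at hC'
  rw [Finset.mem_filter] at hC'
  have hle := eA_le_dC e (X i) C
  rw [hC'.2] at hle
  by_cases hex : ∃ j, i ∈ I j ∧ C ∈ beta e Z X I j
  · obtain ⟨j, hij, hj⟩ := hex
    have h2 : ∑ j' ∈ Finset.univ.filter (fun j => i ∈ I j),
        (if C ∈ beta e Z X I j' then eA e (X i) C else 0) = eA e (X i) C := by
      rw [Finset.sum_eq_single j]
      · rw [if_pos hj]
      · intro j' hj' hne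
        rw [Finset.mem_filter] at hj'
        rw [if_neg]
        intro h
        exact hne (beta_unique hC i j' j hj'.2 hij C h hj)
      · intro h
        exact (h (Finset.mem_filter.2 ⟨Finset.mem_univ _, hij⟩)).elim
    rw [h2]
    have h3 : eA e (X i) C ≠ 3 := by
      unfold beta at hj
      rw [Finset.mem_filter] at hj
      exact hj.2.2.2.2 i hij
    unfold w3
    omega
  · have h2 : ∑ j' ∈ Finset.univ.filter (fun j => i ∈ I j),
        (if C ∈ beta e Z X I j' then eA e (X i) C else 0) = 0 := by
      apply Finset.sum_eq_zero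
      intro j' hj'
      rw [Finset.mem_filter] at hj'
      rw [if_neg]
      intro h
      exact hex ⟨j', hj'.2, h⟩
    rw [h2]
    simp

/-- the gain of one cluster at the hub -/
lemma gain {e : ι → β → ℕ} {full dem : ι → ℕ} {Z : J → Finset ι} {X : H → Finset ι}
    {I : J → Finset H} {gam : J → ℕ} (hD2s : StmtD2s) (hB : DBase e full dem)
    (hC : IsCS e dem Z X I gam) (i : H) (j : J) (hi : i ∈ I j) :
    (xb e Z X I i j = 0 ∧ need e full dem Z X I gam i j + 3 ≤ 2 + eK e Z X i j ∧
      (eK e Z X i j ≤ 3 ∨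
        (need e full dem Z X I gam i j = 0 ∧ 2 ≤ eK e Z X i j ∧ eK e Z X i j ≤ 7) ∨
        (need e full dem Z X I gam i j = 2 ∧ 8 ≤ eK e Z X i j))) ∨
    (xb e Z X I i j ≠ 0 ∧
      need e full dem Z X I gam i j + 7 ≤ 2 + eK e Z X i j + 6 * xb e Z X I i j) := by
  have h1 := ov_eK_xb hC i j hi
  by_cases hs : Sty e full dem Z X I gam j
  · have h2 := (hD2s ι β J H e full dem Z X I gam hB hC j hs).2.1 i hi
    have h3 : xb e Z X I i j = 0 := by
      unfold xb
      rw [hs.2.2.2.2]
      simp
    left
    unfold need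
    rw [if_pos hs, h3]
    omega
  · unfold need
    rw [if_neg hs]
    by_cases h3 : xb e Z X I i j = 0
    · left
      rw [h3]
      split_ifs <;> omega
    · right
      refine ⟨h3, ?_⟩
      split_ifs <;> omega

lemma allow_ge {e : ι → β → ℕ} {full dem : ι → ℕ} {Z : J → Finset ι} {X : H → Finset ι}
    {I : J → Finset H} {gam : J → ℕ} (l : J) (C : β) (h : eA e (Z l) C ≠ 0) :
    3 ≤ allow e full dem Z X I gam l C := by
  unfold allow
  rw [if_neg h]
  split_ifs <;> omega

/-- the last case: exactly two clusters, nothing else -/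
lemma last_case {e : ι → β → ℕ} {full dem : ι → ℕ} {Z : J → Finset ι} {X : H → Finset ι}
    {I : J → Finset H} {gam : J → ℕ} (hB : DBase e full dem) (hL : DLoc e full dem)
    (hC : IsCS e dem Z X I gam) (i : H)
    (h3 : ∀ C, dC e C = 3 → eA e (X i) C = 0)
    (h5 : ∀ C ∈ N5 e X i, ∀ l, i ∉ I l → eA e (Z l) C = 0) :
    7 ≤ ∑ j ∈ Finset.univ.filter (fun j => i ∈ I j), eK e Z X i j := by
  -- the edges of the 5+-components at the hub
  have hd : ∀ C ∈ N5 e X i, dC e C =
      ∑ j ∈ Finset.univ.filter (fun j => i ∈ I j), eA e (Z j) C + eA e (X i) C := by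
    intro C hC'
    rw [dC_split hC C]
    congr 1
    · symm
      apply Finset.sum_subset (Finset.subset_univ _)
      intro l _ hl
      apply h5 C hC' l
      intro h
      exact hl (Finset.mem_filter.2 ⟨Finset.mem_univ _, h⟩)
    · apply Finset.sum_eq_single i
      · intro i' _ hne
        unfold N5 at hC'
        rw [Finset.mem_filter] at hC'
        rcases hC.excl5 i i' (Ne.symm hne) C hC'.2.1 with h | h
        · exact absurd h hC'.2.2
        · exact h
      · intro h
        exact (h (Finset.mem_univ _)).elim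
  have hsum : ∑ C ∈ N5 e X i, dC e C =
      ∑ j ∈ Finset.univ.filter (fun j => i ∈ I j), eK e Z X i j +
        ∑ C ∈ N5 e X i, eA e (X i) C := by
    rw [Finset.sum_congr rfl hd, Finset.sum_add_distrib, Finset.sum_comm]
    rfl
  have hout : outA e (X i) = ∑ C ∈ N5 e X i, eA e (X i) C := by
    unfold outA
    rw [Finset.sum_comm]
    symm
    apply Finset.sum_subset (Finset.subset_univ _)
    intro C _ hn
    by_contra h
    apply hn
    unfold N5
    rw [Finset.mem_filter]
    exact ⟨Finset.mem_univ _, fun h' => h (h3 C h'), h⟩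
  have hcard : demA dem (X i) + 1 = (N5 e X i).card := by
    rw [rX_count hC i]
    have : ∑ C ∈ T3 e, min 2 (eA e (X i) C) = 0 := by
      apply Finset.sum_eq_zero
      intro C hC'
      unfold T3 at hC'
      rw [Finset.mem_filter] at hC'
      rw [h3 C hC'.2]
      rfl
    omega
  have h5le : ∀ C ∈ N5 e X i, 5 ≤ dC e C := by
    intro C hC'
    unfold N5 at hC'
    rw [Finset.mem_filter] at hC'
    have h1 := hB.ge3 C
    obtain ⟨m, hm⟩ := hB.odd C
    omega
  have h5sum : 5 * (N5 e X i).card ≤ ∑ C ∈ N5 e X i, dC e C := by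
    rw [Finset.card_eq_sum_ones, Finset.mul_sum]
    apply Finset.sum_le_sum
    intro C hC'
    have := h5le C hC'
    omega
  -- the number of edges leaving the hub
  have houtle : ∀ s, ∑ C, e s C ≤ 5 * dem s := by
    intro s
    have h1 := hB.le_full s
    rcases hB.kind s with ⟨h2, h4 | h4⟩ | ⟨h2, h4⟩ <;> omega
  have houtle' : outA e (X i) ≤ 5 * demA dem (X i) := by
    unfold outA demA
    rw [Finset.mul_sum]
    exact Finset.sum_le_sum (fun s _ => houtle s)
  by_cases hall : ∀ s ∈ X i, full s = 5 ∧ dem s = 1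
  · have hD : demA dem (X i) = (X i).card := by
      unfold demA
      rw [Finset.card_eq_sum_ones]
      exact Finset.sum_congr rfl (fun s hs => (hall s hs).2)
    by_contra hlt
    push Not at hlt
    -- all components have degree 5
    have hpar : ∀ C ∈ N5 e X i, dC e C = 5 := by
      intro C hC'
      by_contra hne
      have h7 : 7 ≤ dC e C := by
        have h1 := h5le C hC'
        obtain ⟨m, hm⟩ := hB.odd C
        omega
      have h8 : 5 * (N5 e X i).card + 2 ≤ ∑ C ∈ N5 e X i, dC e C := by
        rw [← Finset.add_sum_erase _ _ hC']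
        have h9 : 5 * ((N5 e X i).erase C).card ≤ ∑ C ∈ (N5 e X i).erase C, dC e C := by
          rw [Finset.card_eq_sum_ones, Finset.mul_sum]
          apply Finset.sum_le_sum
          intro C' hC''
          have := h5le C' (Finset.mem_of_mem_erase hC'')
          omega
        have h10 := Finset.card_erase_add_one hC'
        omega
      omega
    have hP : ∑ C ∈ N5 e X i, dC e C = 5 * (N5 e X i).card := by
      rw [Finset.card_eq_sum_ones, Finset.mul_sum]
      apply Finset.sum_congr rfl
      intro C hC'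
      rw [hpar C hC', mul_one]
    apply hL.locK (X i) (N5 e X i) (hC.Xne i) (fun s hs => (hall s hs).1) ?_ hpar (by omega)
      (by omega)
    intro s hs C hsC
    unfold N5
    rw [Finset.mem_filter]
    have hpos : eA e (X i) C ≠ 0 := by
      unfold eA
      intro h0
      rw [Finset.sum_eq_zero_iff] at h0
      exact hsC (h0 s hs)
    exact ⟨Finset.mem_univ _, fun h' => hpos (h3 C h'), hpos⟩
  · push Not at hall
    obtain ⟨s, hs, hs'⟩ := hall
    have h1 : outA e (X i) + 7 ≤ 5 * demA dem (X i) := by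
      unfold outA demA
      rw [← Finset.add_sum_erase _ _ hs, ← Finset.add_sum_erase _ _ hs, mul_add, Finset.mul_sum]
      have h2 : ∑ s ∈ (X i).erase s, ∑ C, e s C ≤ ∑ s ∈ (X i).erase s, 5 * dem s :=
        Finset.sum_le_sum (fun s _ => houtle s)
      have h4 : ∑ C, e s C + 7 ≤ 5 * dem s := by
        have h1 := hB.le_full s
        rcases hB.kind s with ⟨h2, h4 | h4⟩ | ⟨h2, h4⟩
        · exact absurd h4 (hs' h2)
        · omega
        · omega
      omega
    omega

/-- D2b: the inequality of a hub -/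
theorem d2b (hD2s : StmtD2s) : StmtD2b := by
  intro ι β J H _ _ _ _ e full dem Z X I gam hB hL hC i
  have hm := massH_eq e full dem Z X I gam i
  have hr := rX_count hC i
  have ht := T3_sum e X i
  have hx := xb_sum hC i
  set F := Finset.univ.filter (fun j => i ∈ I j) with hF
  set R := ∑ C ∈ N5 e X i, red e full dem Z X I gam i C with hR
  set W := ∑ C ∈ T3 e, w3 (eA e (X i) C) with hW
  -- the claim is equivalent to this
  have key : 9 + ∑ j ∈ F, need e full dem Z X I gam i j ≤
      ∑ j ∈ F, (2 + eK e Z X i j) + R + W := by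
    have hg : ∀ j ∈ F, _ := fun j hj => gain hD2s hB hC i j (Finset.mem_filter.1 hj).2
    -- two different clusters at the hub
    have hpair : ∃ j1 ∈ F, ∃ j2 ∈ F, j1 ≠ j2 ∧
        ((∃ j ∈ F, xb e Z X I i j ≠ 0) → xb e Z X I i j1 ≠ 0) := by
      have h2 : 2 ≤ F.card := hC.mu2 i
      by_cases hex : ∃ j ∈ F, xb e Z X I i j ≠ 0
      · obtain ⟨j, hj, hxj⟩ := hex
        have h3 : 1 < F.card := by omega
        obtain ⟨j', hj', hne⟩ := Finset.exists_mem_ne h3 j
        exact ⟨j, hj, j', hj', Ne.symm hne, fun _ => hxj⟩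
      · have h3 : 1 < F.card := by omega
        obtain ⟨j1, hj1, j2, hj2, hne⟩ := Finset.one_lt_card.1 h3
        exact ⟨j1, hj1, j2, hj2, hne, fun h => absurd h hex⟩
    obtain ⟨j1, hj1, j2, hj2, hne, hpref⟩ := hpair
    have hj2' : j2 ∈ F.erase j1 := Finset.mem_erase.2 ⟨Ne.symm hne, hj2⟩
    set F' := (F.erase j1).erase j2 with hF'
    have hsplit : ∀ f : J → ℕ, ∑ j ∈ F, f j = f j1 + (f j2 + ∑ j ∈ F', f j) := by
      intro f
      rw [← Finset.add_sum_erase F f hj1, ← Finset.add_sum_erase _ f hj2']
    have hF'sub : ∀ j ∈ F', j ∈ F := fun j hj =>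
      Finset.mem_of_mem_erase (Finset.mem_of_mem_erase hj)
    rw [hsplit (fun j => xb e Z X I i j)] at hx
    rw [hsplit (fun j => need e full dem Z X I gam i j), hsplit (fun j => 2 + eK e Z X i j)]
    have hrest : ∑ j ∈ F', need e full dem Z X I gam i j + 3 * F'.card ≤
        ∑ j ∈ F', (2 + eK e Z X i j) + 6 * ∑ j ∈ F', xb e Z X I i j := by
      rw [Finset.card_eq_sum_ones, Finset.mul_sum, Finset.mul_sum, ← Finset.sum_add_distrib,
        ← Finset.sum_add_distrib]
      apply Finset.sum_le_sum
      intro j hj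
      have := hg j (hF'sub j hj)
      omega
    have hg1 := hg j1 hj1
    have hg2 := hg j2 hj2
    by_cases hx1 : xb e Z X I i j1 = 0
    · have hx0 : ∀ j ∈ F, xb e Z X I i j = 0 := by
        intro j hj
        by_contra h
        exact hpref ⟨j, hj, h⟩ hx1
      have hx2 := hx0 j2 hj2
      have hx3 : ∑ j ∈ F', xb e Z X I i j = 0 :=
        Finset.sum_eq_zero (fun j hj => hx0 j (hF'sub j hj))
      by_cases hcard : F'.card = 0
      · by_cases hRW : 3 ≤ R + W
        · omega
        · have h3 : ∀ C, dC e C = 3 → eA e (X i) C = 0 := by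
            intro C h3
            by_contra h
            have hle := eA_le_dC e (X i) C
            have h1 : w3 (eA e (X i) C) ≤ W :=
              Finset.single_le_sum (f := fun C => w3 (eA e (X i) C)) (fun _ _ => Nat.zero_le _)
                (Finset.mem_filter.2 ⟨Finset.mem_univ C, h3⟩)
            unfold w3 at h1
            omega
          have h5 : ∀ C ∈ N5 e X i, ∀ l, i ∉ I l → eA e (Z l) C = 0 := by
            intro C hC' l hl
            by_contra h
            have h1 := allow_ge (full := full) (dem := dem) (X := X) (I := I) (gam := gam) l C h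
            have h2 : allow e full dem Z X I gam l C ≤
                ∑ l ∈ Finset.univ.filter (fun l => i ∉ I l), allow e full dem Z X I gam l C :=
              Finset.single_le_sum (f := fun l => allow e full dem Z X I gam l C)
                (fun _ _ => Nat.zero_le _) (Finset.mem_filter.2 ⟨Finset.mem_univ l, hl⟩)
            have h4 : red e full dem Z X I gam i C ≤ R :=
              Finset.single_le_sum (f := fun C => red e full dem Z X I gam i C)
                (fun _ _ => Nat.zero_le _) hC'
            unfold red at h4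
            omega
          have h7 := last_case hB hL hC i h3 h5
          rw [← hF, hsplit] at h7
          have hF'0 : F' = ∅ := Finset.card_eq_zero.1 hcard
          rw [hF'0] at h7 ⊢
          simp only [Finset.sum_empty] at h7 ⊢
          omega
      · omega
    · omega
  omega

end

end Pool.Agent.H31.F14
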